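import Pool.Agent.H40.CT.Many

/-!
# Attribute-efficient learning of parities: functions of halfspaces and comparison trees

Learners (without any bound on the running time) whose hypotheses are arbitrary Boolean functions of
`K` halfspaces and of `L` threshold gates of degree `2` and small rank, or decision trees whose nodes
are comparisons of functions of complementary sets of variables, need many mistakes for parities of
two variables.
-/

set_option autoImplicit false

namespace Pool.Agent.Results.MP_58e5da_lc.ComparisonTrees

open Finset Pool.Agent.H40.AE Pool.Agent.H40.CT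

/-- First part. Let `A` be a learner (any function from finite histories of labelled examples to
hypotheses) each of whose hypotheses is computed by a comparison tree of cost at most `w` for the
set `I` of variables, and let `C` be the integer part of `(n log w) ^ (1/2)`. If `r ≥ 2`,
`j C < |I|`, `j C < n - |I|` and `2 j C + r ≤ n`, then `A` makes at least `j` mistakes on some
parity function of exactly `r` variables and some finite sequence of examples. Second part: the same
for hypotheses that are arbitrary Boolean functions of `K` threshold gates with real weights and of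
`L` threshold gates of degree `2` and rank at most `d`, with `C` the integer part of
`(n (K log 2 + 4 L (d + 1) log (8 d + 12))) ^ (1/2)`. -/
theorem result :
    (∀ (n r j w : ℕ) (I : Finset (Fin n)) (A : List (Ex n × ZMod 2) → Ex n → ZMod 2),
      (∀ h, Tree I w (A h)) → 2 ≤ r → j * cost n w < I.card → j * cost n w + I.card < n →
      2 * j * cost n w + r ≤ n →
        ∃ S : Finset (Fin n), S.card = r ∧
          ∃ xs : List (Ex n), j ≤ mistakes A (chi S) [] xs) ∧
    ∀ (n r j K L d : ℕ) (A : List (Ex n × ZMod 2) → Net n K L d), 2 ≤ r →
      2 * j * ⌊Real.sqrt (n * (K * Real.log 2 + 4 * L * (d + 1) * Real.log (8 * d + 12)))⌋₊ + r ≤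
          n →
        ∃ S : Finset (Fin n), S.card = r ∧
          ∃ xs : List (Ex n), j ≤ mistakes (fun h x => (A h).val x) (chi S) [] xs := by
  refine ⟨fun n r j w I A hA hr h1 h2 hn => many n r j w I A hA hr h1 h2 hn, ?_⟩
  intro n r j K L d A hr hn
  have hc : ⌊Real.sqrt (n * (K * Real.log 2 + 4 * L * (d + 1) * Real.log (8 * d + 12)))⌋₊ =
      cost n (rcost (d + d + 2) ^ L * 2 ^ K) := by
    unfold cost
    congr 3
    have h1 : ((rcost (d + d + 2) ^ L * 2 ^ K : ℕ) : ℝ) =
        ((8 * d + 12 : ℝ) ^ (4 * (d + 1))) ^ L * 2 ^ K := by
      unfold rcost
      have h2 : (16 * (d + d + 2 + 1) ^ 2) ^ (d + d + 2) = (8 * d + 12) ^ (4 * (d + 1)) := by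
        have h3 : 16 * (d + d + 2 + 1) ^ 2 = (8 * d + 12) ^ 2 := by ring
        rw [h3, ← pow_mul]
        congr 1
        ring
      rw [h2]
      push_cast
      rfl
    rw [h1, Real.log_mul (by positivity) (by positivity), Real.log_pow, Real.log_pow, Real.log_pow]
    push_cast
    ring
  rw [hc] at hn
  set w := rcost (d + d + 2) ^ L * 2 ^ K with hw
  have h3 : 2 * j * cost n w = 2 * (j * cost n w) := by ring
  obtain ⟨I, -, hI⟩ := Finset.exists_subset_card_eq (s := (univ : Finset (Fin n))) (n := n / 2) (by
    rw [Finset.card_univ, Fintype.card_fin]
    omega)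
  exact many n r j w I _ (fun h => tree_quads I K d (A h).weight (A h).thr L (A h).main (A h).left
    (A h).right (A h).bound (A h).comb) hr (by omega) (by omega) hn

end Pool.Agent.Results.MP_58e5da_lc.ComparisonTrees
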