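import Pool.Agent.H40.AE.Wid

/-!
# Attribute-efficient learning of parities: hypotheses made of few decision lists

Learners (without any bound on the running time) whose hypotheses are arbitrary Boolean functions of
decision lists. The tests may be arbitrarily wide conjunctions of literals combined with systems of
polynomial equations of low degree over the field with two elements.

The case without literals (degree bounds only, one relevant variable) is due to helper59, whose
earlier file of this name this one replaces; lists with arbitrarily wide tests are due to helper40.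
-/

set_option autoImplicit false

namespace Pool.Agent.Results.MP_58e5da_lc.DecisionLists

open Finset Pool.Agent.H40.AE

/-- A hypothesis: an arbitrary Boolean function `comb` of the values of decision lists. -/
structure Hyp (n : ℕ) where
  lists : Lists n
  comb : (Fin lists.len → ZMod 2) → ZMod 2

/-- The function given by a hypothesis. -/
noncomputable def Hyp.val {n : ℕ} (g : Hyp n) (x : Ex n) : ZMod 2 := g.comb (g.lists.vals x)

private theorem game {n L s k : ℕ} (R : Finset (Fin n)) (A : List (Ex n × ZMod 2) → Hyp n)
    (hA : ∀ h, (A h).lists.Bound L s k) :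
    ∀ (j : ℕ) (V : Finset (Fin n)) (h : List (Ex n × ZMod 2)), Disjoint V R →
      j * (wid n L s + k) < V.card →
        ∃ i ∈ V, ∃ xs : List (Ex n),
          j ≤ mistakes (fun h x => (A h).val x) (chi (insert i R)) h xs := by
  classical
  intro j
  induction j with
  | zero =>
    intro V h _ hV
    obtain ⟨i, hi⟩ := card_pos.mp (by omega : 0 < V.card)
    exact ⟨i, hi, [], Nat.zero_le _⟩
  | succ j ih =>
    intro V h hVR hV
    rw [add_mul, one_mul] at hV
    obtain ⟨x, x', h1, h2, h3, h4, h5⟩ := twins_wid V (fun _ => (0 : ZMod 2))
      (fun i => if i ∈ V then (1 : ZMod 2) else 0)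
      (fun i hi => by
        show (0 : ZMod 2) ≠ if i ∈ V then 1 else 0
        rw [if_pos hi]
        exact zero_ne_one)
      (fun i hi => by
        show (0 : ZMod 2) = if i ∈ V then 1 else 0
        rw [if_neg hi])
      (A h).lists L s k (hA h)
    have hv : (A h).val x = (A h).val x' := by
      unfold Hyp.val
      rw [h5]
    have hchi : ∀ (z : Ex n), (∀ i, i ∉ V → z i = 0) → ∀ i ∈ V, chi (insert i R) z = z i := by
      intro z hz i hi
      unfold chi
      rw [Finset.sum_insert (Finset.disjoint_left.1 hVR hi), Finset.sum_eq_zero, add_zero]
      intro c hc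
      exact hz c fun h => Finset.disjoint_left.1 hVR h hc
    have hstep : ∀ (z : Ex n) (l : ZMod 2), (∀ i, i ∉ V → z i = 0) →
        (V.filter fun i => z i ≠ l).card ≤ wid n L s + k → (A h).val z ≠ l →
        ∃ i ∈ V, ∃ xs : List (Ex n),
          j + 1 ≤ mistakes (fun h x => (A h).val x) (chi (insert i R)) h xs := by
      intro z l hz hc hl
      have hcard : (V.filter fun i => z i = l).card + (V.filter fun i => z i ≠ l).card = V.card :=
        Finset.card_filter_add_card_filter_not _
      obtain ⟨i, hi, xs, hxs⟩ := ih (V.filter fun i => z i = l) (h ++ [(z, l)])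
        (Finset.disjoint_of_subset_left (filter_subset _ _) hVR) (by omega)
      have hi' := mem_filter.1 hi
      refine ⟨i, hi'.1, z :: xs, ?_⟩
      unfold mistakes
      rw [hchi z hz i hi'.1, hi'.2, if_neg hl]
      omega
    have h2' : ∀ i, i ∉ V → x' i = 0 := by
      intro i hi
      rw [h2 i hi]
      exact if_neg hi
    have h4' : (V.filter fun i => x' i ≠ 1).card ≤ wid n L s + k := by
      refine le_trans (Finset.card_le_card ?_) h4
      intro i hi
      have hi' := mem_filter.1 hi
      refine mem_filter.2 ⟨hi'.1, ?_⟩
      show x' i ≠ if i ∈ V then 1 else 0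
      rw [if_pos hi'.1]
      exact hi'.2
    by_cases h0 : (A h).val x = 0
    · refine hstep x' 1 h2' h4' ?_
      rw [← hv, h0]
      exact zero_ne_one
    · exact hstep x 0 h1 h3 h0

/-- Let `A` be a learner (any function from finite histories of labelled examples to hypotheses)
each of whose hypotheses is an arbitrary Boolean function of at most `L` decision lists with
together at most `s` rules that have literals and with tests of total degree at most `k`. If
`r ≥ 1` and `j * (wid n L s + k) + r ≤ n`, then `A` makes at least `j` mistakes on some parity
function of exactly `r` variables and some finite sequence of examples. -/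
theorem result : ∀ (n r L s k j : ℕ) (A : List (Ex n × ZMod 2) → Hyp n),
    (∀ h, (A h).lists.Bound L s k) → 1 ≤ r → j * (wid n L s + k) + r ≤ n →
      ∃ S : Finset (Fin n), S.card = r ∧
        ∃ xs : List (Ex n), j ≤ mistakes (fun h x => (A h).val x) (chi S) [] xs := by
  classical
  intro n r L s k j A hA hr hn
  obtain ⟨R, -, hR⟩ := Finset.exists_subset_card_eq (s := (univ : Finset (Fin n))) (n := r - 1)
    (by rw [Finset.card_univ, Fintype.card_fin]; omega)
  obtain ⟨i, hi, xs, hxs⟩ := game R A hA j (univ \ R) [] sdiff_disjoint (by
    rw [Finset.card_sdiff_of_subset (subset_univ R), Finset.card_univ, Fintype.card_fin, hR]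
    omega)
  refine ⟨insert i R, ?_, xs, hxs⟩
  rw [Finset.card_insert_of_notMem (mem_sdiff.1 hi).2, hR]
  omega

end Pool.Agent.Results.MP_58e5da_lc.DecisionLists
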