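import Pool.Agent.H40.AE.Game

/-!
# Attribute-efficient learning of parities: few gates and decision lists

Learners (without any bound on the running time) whose hypotheses are arbitrary Boolean functions of
a few threshold gates with real weights, of a linear sum in an abelian group that takes few values
(for example of few symmetric or modular gates) and of decision lists.
-/

set_option autoImplicit false

namespace Pool.Agent.Results.MP_58e5da_lc.GatesAndLists

open Finset Pool.Agent.H40.AE

/-- A hypothesis: `K` threshold gates, the gate `q` having the weight vector `weight (form q)` (only
`m` weight vectors are used) and the threshold `thr q`; elements `coef i` of an abelian group `G`;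
decision lists; and an arbitrary Boolean function `comb` of the values of all gates, of the sum of
the `coef i` over the ones of the example and of the values of the lists. -/
structure Hyp (n m K : ℕ) (G : Type) where
  weight : Fin m → Fin n → ℝ
  form : Fin K → Fin m
  thr : Fin K → ℝ
  coef : Fin n → G
  lists : Lists n
  comb : (Fin K → Bool) → G → (Fin lists.len → ZMod 2) → ZMod 2

open scoped Classical in
/-- The function given by a hypothesis. -/
noncomputable def Hyp.val {n m K : ℕ} {G : Type} [AddCommGroup G] (g : Hyp n m K G) (x : Ex n) :
    ZMod 2 :=
  g.comb (fun q => decide (g.thr q ≤ lin (g.weight (g.form q)) x)) (gsum g.coef x)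
    (g.lists.vals x)

/-- Let `A` be a learner (any function from finite histories of labelled examples to hypotheses)
each of whose hypotheses is an arbitrary Boolean function of `K` threshold gates with at most `m`
different weight vectors, of a sum `∑ x i * coef i` in an abelian group that takes at most `N`
values and of decision lists with the bounds `L`, `s`, `k`. Put `e = wid n L s + k` and let `t` be
the integer part of `log₂ (N * (n + 1) ^ (2 * m))`. If `r ≥ 2` and
`2 * j * (m * K + (e + 1) * t + e) + r ≤ n`, then `A` makes at least `j` mistakes on some parity
function of exactly `r` variables and some finite sequence of examples. -/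
theorem result : ∀ (n r m K N L s k j : ℕ) (G : Type) [AddCommGroup G]
    (A : List (Ex n × ZMod 2) → Hyp n m K G),
    (∀ h, (A h).lists.Bound L s k ∧ (Set.range (gsum (A h).coef)).ncard ≤ N) → 2 ≤ r →
    2 * j * (m * K + (wid n L s + k + 1) * Nat.log 2 (N * (n + 1) ^ (2 * m)) + (wid n L s + k)) +
      r ≤ n →
      ∃ S : Finset (Fin n), S.card = r ∧
        ∃ xs : List (Ex n), j ≤ mistakes (fun h x => (A h).val x) (chi S) [] xs := by
  classical
  intro n r m K N L s k j G _ A hA hr hn
  refine mistakes_of_fools n r j _ _ ?_ hr hn
  intro M a b ha hb hab h V hV
  exact step_block a b ha hb hab (A h).weight (A h).form (A h).thr (A h).coef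
    (Set.range (gsum (A h).coef)).toFinset (by
      intro x
      rw [Set.mem_toFinset]
      exact Set.mem_range_self x) N _ (by
      rw [← Set.ncard_eq_toFinset_card']
      exact (hA h).2) (Nat.lt_pow_succ_log_self (by norm_num) _) (A h).lists L s k (hA h).1
    (fun p q r => (A h).comb p q r) (A h).val (fun _ => rfl) V (by omega)

end Pool.Agent.Results.MP_58e5da_lc.GatesAndLists
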