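import Mathlib

/-!
# Attribute-efficient learning of parities needs hypotheses of almost `n` bits
-/

set_option autoImplicit false

namespace Pool.Agent.Results.MP_58e5da_lc.HypothesisBits

open Finset

/-- The examples: bit vectors of length `n`. -/
abbrev Ex (n : ℕ) : Type := Fin n → ZMod 2

/-- The parity function of the set `S`. -/
def chi {n : ℕ} (S : Finset (Fin n)) (x : Ex n) : ZMod 2 := ∑ i ∈ S, x i

/-- The number of mistakes in the remaining trials `xs` of the learner that predicts the label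
`P h x` of the example `x` after the labelled examples `h`, when the target is `f`. -/
def mistakes {n : ℕ} (P : List (Ex n × ZMod 2) → Ex n → ZMod 2) (f : Ex n → ZMod 2) :
    List (Ex n × ZMod 2) → List (Ex n) → ℕ
  | _, [] => 0
  | h, x :: xs => (if P h x = f x then 0 else 1) + mistakes P f (h ++ [(x, f x)]) xs

section measure

variable {α : Type*}

open scoped Classical in
/-- The product measure with parameter `1/3` of a family of subsets of `V`, times `3 ^ #V`. -/
private noncomputable def wt (V : Finset α) (F : Finset α → Prop) : ℕ :=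
  ∑ A ∈ V.powerset, if F A then 2 ^ (V.card - A.card) else 0

private theorem wt_total (V : Finset α) : wt V (fun _ => True) = 3 ^ V.card := by
  unfold wt
  have h := Finset.sum_pow_mul_eq_add_pow (1 : ℕ) 2 V
  simp only [if_true]
  rw [show (3 : ℕ) = 1 + 2 from rfl, ← h]
  exact Finset.sum_congr rfl fun A _ => by simp

private theorem wt_mono (V : Finset α) {F G : Finset α → Prop} (h : ∀ A ⊆ V, F A → G A) :
    wt V F ≤ wt V G := by
  classical
  unfold wt
  refine Finset.sum_le_sum fun A hA => ?_
  by_cases hF : F A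
  · rw [if_pos hF, if_pos (h A (mem_powerset.1 hA) hF)]
  · rw [if_neg hF]
    exact Nat.zero_le _

private theorem wt_le (V : Finset α) (F : Finset α → Prop) : wt V F ≤ 3 ^ V.card := by
  rw [← wt_total]
  exact wt_mono V fun _ _ _ => trivial

variable [DecidableEq α]

private theorem wt_insert (V : Finset α) (a : α) (ha : a ∉ V) (F : Finset α → Prop) :
    wt (insert a V) F = 2 * wt V F + wt V (fun A => F (insert a A)) := by
  classical
  unfold wt
  rw [Finset.sum_powerset_insert ha, Finset.mul_sum]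
  congr 1
  · refine Finset.sum_congr rfl fun A hA => ?_
    have h1 : A.card ≤ V.card := Finset.card_le_card (mem_powerset.1 hA)
    rw [Finset.card_insert_of_notMem ha]
    split_ifs
    · rw [Nat.sub_add_comm h1, pow_succ, mul_comm]
    · rfl
  · refine Finset.sum_congr rfl fun A hA => ?_
    have h1 : a ∉ A := fun h => ha (mem_powerset.1 hA h)
    rw [Finset.card_insert_of_notMem ha, Finset.card_insert_of_notMem h1]
    simp

private theorem ineq (U X Y W Z : ℕ) (hU : U ≤ W) (hX : X ≤ W) (hY : Y ≤ W) (hZ : Z ≤ 4 * W)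
    (h : U * Z = X * Y) : 4 * U + 2 * X + 2 * Y + Z ≤ 9 * W := by
  rcases le_or_gt Z W with h1 | h1
  · omega
  · have h2 : X * Y ≤ W * W := Nat.mul_le_mul hX hY
    have h3 : 4 * U + Z ≤ 5 * W := by
      by_contra h4
      push Not at h4
      have h5 : 0 < Z := by omega
      have h6 : 5 * W * Z < (4 * U + Z) * Z := Nat.mul_lt_mul_of_pos_right h4 h5
      nlinarith
    omega

/-- Two families such that any member of the first meets any member of the second in at least `T`
points: the product of the measures is at most `4 ^ (-T)`. -/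
private theorem cross (V : Finset α) : ∀ (T : ℕ) (F G : Finset α → Prop),
    (∀ A ⊆ V, ∀ B ⊆ V, F A → G B → T ≤ (A ∩ B).card) →
      4 ^ T * (wt V F * wt V G) ≤ 9 ^ V.card := by
  classical
  induction V using Finset.induction_on with
  | empty =>
    intro T F G h
    unfold wt
    simp only [powerset_empty, sum_singleton, card_empty, tsub_zero, pow_zero]
    by_cases hF : F ∅
    · by_cases hG : G ∅
      · have h1 := h ∅ (subset_refl _) ∅ (subset_refl _) hF hG
        simp only [inter_empty, card_empty, nonpos_iff_eq_zero] at h1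
        subst h1
        simp [hF, hG]
      · simp [hG]
    · simp [hF]
  | insert a V ha ih =>
    intro T F G h
    rcases Nat.eq_zero_or_pos T with hT | hT
    · subst hT
      rw [pow_zero, one_mul, show (9 : ℕ) = 3 * 3 from rfl, mul_pow]
      exact Nat.mul_le_mul (wt_le _ _) (wt_le _ _)
    · obtain ⟨T', rfl⟩ : ∃ T', T = T' + 1 := ⟨T - 1, by omega⟩
      have hs : ∀ A ⊆ V, A ⊆ insert a V := fun A hA => hA.trans (subset_insert a V)
      have hi : ∀ A ⊆ V, insert a A ⊆ insert a V := fun A hA => insert_subset_insert a hA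
      have hn : ∀ A ⊆ V, a ∉ A := fun A hA hm => ha (hA hm)
      have h00 := ih (T' + 1) F G fun A hA B hB => h A (hs A hA) B (hs B hB)
      have h01 := ih (T' + 1) F (fun B => G (insert a B)) fun A hA B hB hF hG => by
        have := h A (hs A hA) _ (hi B hB) hF hG
        rwa [Finset.inter_insert_of_notMem (hn A hA)] at this
      have h10 := ih (T' + 1) (fun A => F (insert a A)) G fun A hA B hB hF hG => by
        have := h _ (hi A hA) B (hs B hB) hF hG
        rwa [Finset.insert_inter_of_notMem (hn B hB)] at this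
      have h11 := ih T' (fun A => F (insert a A)) (fun B => G (insert a B))
        fun A hA B hB hF hG => by
        have h1 := h _ (hi A hA) _ (hi B hB) hF hG
        rw [← Finset.insert_inter_distrib, Finset.card_insert_of_notMem] at h1
        · omega
        · exact fun hm => hn A hA (mem_inter.1 hm).1
      rw [wt_insert V a ha, wt_insert V a ha, Finset.card_insert_of_notMem ha, pow_succ 9]
      generalize wt V F = a0 at *
      generalize wt V G = b0 at *
      generalize wt V (fun A => F (insert a A)) = a1 at *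
      generalize wt V (fun B => G (insert a B)) = b1 at *
      have key := ineq (4 ^ (T' + 1) * (a0 * b0)) (4 ^ (T' + 1) * (a0 * b1))
        (4 ^ (T' + 1) * (a1 * b0)) (9 ^ V.card) (4 ^ (T' + 1) * (a1 * b1)) h00 h01 h10
        (by rw [pow_succ]; nlinarith) (by ring)
      calc 4 ^ (T' + 1) * ((2 * a0 + a1) * (2 * b0 + b1))
          = 4 * (4 ^ (T' + 1) * (a0 * b0)) + 2 * (4 ^ (T' + 1) * (a0 * b1))
            + 2 * (4 ^ (T' + 1) * (a1 * b0)) + 4 ^ (T' + 1) * (a1 * b1) := by ring
        _ ≤ 9 * 9 ^ V.card := key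
        _ = 9 ^ V.card * 9 := by ring

private theorem small_num : ∀ n : ℕ, 11 ≤ n → 2 * 2 ^ ((n - 1) / 6) * 5 ^ n < 6 ^ n := by
  intro n
  induction n using Nat.strong_induction_on with
  | _ n ih =>
    intro hn
    rcases Nat.lt_or_ge n 17 with h | h
    · interval_cases n <;> norm_num
    · have h1 := ih (n - 6) (by omega) (by omega)
      obtain ⟨m, rfl⟩ : ∃ m, n = m + 6 := ⟨n - 6, by omega⟩
      simp only [Nat.add_sub_cancel] at h1
      have h2 : (m + 6 - 1) / 6 = (m - 1) / 6 + 1 := by omega
      rw [h2, pow_succ, pow_add 5, pow_add 6]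
      have h3 : (2 : ℕ) * (2 ^ ((m - 1) / 6) * 2) * (5 ^ m * 5 ^ 6)
          = (2 * 2 ^ ((m - 1) / 6) * 5 ^ m) * (2 * 5 ^ 6) := by ring
      rw [h3]
      calc (2 * 2 ^ ((m - 1) / 6) * 5 ^ m) * (2 * 5 ^ 6) < 6 ^ m * (2 * 5 ^ 6) :=
            Nat.mul_lt_mul_of_pos_right h1 (by norm_num)
        _ ≤ 6 ^ m * 6 ^ 6 := Nat.mul_le_mul_left _ (by norm_num)

omit [DecidableEq α] in
/-- Less than half of the measure is on the sets with less than `#V / 6` elements. -/
private theorem tail (V : Finset α) (hV : 11 ≤ V.card) :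
    2 * wt V (fun A => 6 * A.card < V.card) < 3 ^ V.card := by
  classical
  have h1 : wt V (fun A => 6 * A.card < V.card) * 2 ^ (V.card - (V.card - 1) / 6)
      ≤ 5 ^ V.card := by
    have h := Finset.sum_pow_mul_eq_add_pow (1 : ℕ) 4 V
    rw [show (5 : ℕ) = 1 + 4 from rfl, ← h]
    unfold wt
    rw [Finset.sum_mul]
    refine Finset.sum_le_sum fun A hA => ?_
    have hc : A.card ≤ V.card := Finset.card_le_card (mem_powerset.1 hA)
    by_cases hs : 6 * A.card < V.card
    · rw [if_pos hs, one_pow, one_mul, show (4 : ℕ) = 2 * 2 from rfl, mul_pow]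
      exact Nat.mul_le_mul_left _ (Nat.pow_le_pow_right (by norm_num) (by omega))
    · rw [if_neg hs, zero_mul]
      exact Nat.zero_le _
  have h2 := small_num V.card hV
  set n := V.card with hn
  set m := (n - 1) / 6 with hm
  have hmn : m ≤ n := by omega
  have h3 : (2 : ℕ) ^ (n - m) * 2 ^ m = 2 ^ n := by rw [← pow_add]; congr 1; omega
  have h4 : (6 : ℕ) ^ n = 3 ^ n * 2 ^ n := by
    rw [← mul_pow]
    norm_num
  by_contra hc
  push Not at hc
  have h5 : 3 ^ n * 2 ^ n ≤ 2 * 2 ^ m * 5 ^ n := by
    calc 3 ^ n * 2 ^ n = 3 ^ n * (2 ^ (n - m) * 2 ^ m) := by rw [h3]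
      _ ≤ (2 * wt V (fun A => 6 * A.card < n)) * (2 ^ (n - m) * 2 ^ m) :=
          Nat.mul_le_mul_right _ hc
      _ = 2 * 2 ^ m * (wt V (fun A => 6 * A.card < n) * 2 ^ (n - m)) := by ring
      _ ≤ 2 * 2 ^ m * 5 ^ n := Nat.mul_le_mul_left _ h1
  omega

end measure

section game

variable {n : ℕ}

/-- The example with the set `X` of ones. -/
private def ind (X : Finset (Fin n)) : Ex n := fun i => if i ∈ X then 1 else 0

/-- The hypothesis `g` is `t`-good for the set `C` of candidates: every mistake on an example with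
the ones in `V` excludes more than `t` candidates. -/
private def Good (V : Finset (Fin n)) (t : ℕ) (g : Ex n → ZMod 2) (C : Finset (Fin n)) : Prop :=
  ∀ X ⊆ V, ((X ∩ C).card ≤ t → g (ind X) = 0) ∧ ((C \ X).card ≤ t → g (ind X) = 1)

private theorem good_inter (V : Finset (Fin n)) (t : ℕ) (g : Ex n → ZMod 2)
    (C D : Finset (Fin n)) (hD : D ⊆ V) (h1 : Good V t g C) (h2 : Good V t g D) :
    2 * t + 1 ≤ (C ∩ D).card := by
  by_contra hc
  push Not at hc
  obtain ⟨E, hE, hEc⟩ := Finset.exists_subset_card_eq (s := C ∩ D)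
    (n := min t (C ∩ D).card) (min_le_right _ _)
  have hX : D \ E ⊆ V := sdiff_subset.trans hD
  have e1 : g (ind (D \ E)) = 0 := by
    refine (h1 _ hX).1 ?_
    have : (D \ E) ∩ C = (C ∩ D) \ E := by
      ext i
      simp only [mem_inter, mem_sdiff]
      tauto
    rw [this, Finset.card_sdiff_of_subset hE]
    omega
  have e2 : g (ind (D \ E)) = 1 := by
    refine (h2 _ hX).2 ?_
    have : D \ (D \ E) = E := by
      rw [sdiff_sdiff_right_self]
      exact inter_eq_right.2 (hE.trans inter_subset_right)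
    rw [this]
    omega
  rw [e1] at e2
  exact absurd e2 (by decide)

/-- Some large set of candidates has no subset for which a hypothesis of the class is good. -/
private theorem exists_bad (V : Finset (Fin n)) (hV : 11 ≤ V.card) (s t : ℕ) (hst : s ≤ 2 * t)
    (H : Finset (Ex n → ZMod 2)) (hH : H.card ≤ 2 ^ s) :
    ∃ C ⊆ V, V.card ≤ 6 * C.card ∧ ∀ g ∈ H, ∀ C' ⊆ C, ¬ Good V t g C' := by
  classical
  by_contra hcon
  push Not at hcon
  set N := V.card with hN
  let Fg : (Ex n → ZMod 2) → Finset (Fin n) → Prop := fun g C => ∃ C' ⊆ C, Good V t g C'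
  have h1 : ∀ g, 2 ^ (2 * t + 1) * wt V (Fg g) ≤ 3 ^ N := by
    intro g
    have h2 := cross V (2 * t + 1) (Fg g) (Fg g) fun A hA B hB hF hG => by
      obtain ⟨A', hA', gA⟩ := hF
      obtain ⟨B', hB', gB⟩ := hG
      exact (good_inter V t g A' B' (hB'.trans hB) gA gB).trans
        (Finset.card_le_card (Finset.inter_subset_inter hA' hB'))
    have h3 : (2 ^ (2 * t + 1) * wt V (Fg g)) ^ 2 ≤ (3 ^ N) ^ 2 := by
      calc (2 ^ (2 * t + 1) * wt V (Fg g)) ^ 2
          = 4 ^ (2 * t + 1) * (wt V (Fg g) * wt V (Fg g)) := by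
            rw [mul_pow, ← pow_mul, mul_comm (2 * t + 1) 2, pow_mul]
            norm_num
            ring
        _ ≤ 9 ^ N := h2
        _ = (3 ^ N) ^ 2 := by rw [← pow_mul, mul_comm N 2, pow_mul]; norm_num
    exact (Nat.pow_le_pow_iff_left (by norm_num)).1 h3
  have h4 : 3 ^ N ≤ wt V (fun A => 6 * A.card < N) + ∑ g ∈ H, wt V (Fg g) := by
    rw [hN, ← wt_total V]
    unfold wt
    rw [Finset.sum_comm, ← Finset.sum_add_distrib]
    refine Finset.sum_le_sum fun A hA => ?_
    rw [if_pos trivial]
    by_cases hs : 6 * A.card < V.card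
    · rw [if_pos hs]
      exact Nat.le_add_right _ _
    · push Not at hs
      obtain ⟨g, hg, C', hC', hgood⟩ := hcon A (mem_powerset.1 hA) hs
      have h5 : Fg g A := ⟨C', hC', hgood⟩
      refine le_trans ?_ (Nat.le_add_left _ _)
      refine le_trans ?_ (Finset.single_le_sum (fun _ _ => Nat.zero_le _) hg)
      rw [if_pos h5]
  have h6 := tail V hV
  rw [← hN] at h6
  have h7 : 2 ^ (2 * t + 1) * ∑ g ∈ H, wt V (Fg g) ≤ 2 ^ (2 * t) * 3 ^ N := by
    rw [Finset.mul_sum]
    calc ∑ g ∈ H, 2 ^ (2 * t + 1) * wt V (Fg g) ≤ ∑ _g ∈ H, 3 ^ N :=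
          Finset.sum_le_sum fun g _ => h1 g
      _ = H.card * 3 ^ N := by rw [Finset.sum_const, smul_eq_mul]
      _ ≤ 2 ^ (2 * t) * 3 ^ N :=
          Nat.mul_le_mul_right _ (hH.trans (Nat.pow_le_pow_right (by norm_num) hst))
  have h8 : 2 * ∑ g ∈ H, wt V (Fg g) ≤ 3 ^ N := by
    have h9 : 2 ^ (2 * t) * (2 * ∑ g ∈ H, wt V (Fg g)) ≤ 2 ^ (2 * t) * 3 ^ N := by
      rw [← mul_assoc, ← pow_succ]
      exact h7
    exact Nat.le_of_mul_le_mul_left h9 (by positivity)
  omega

private theorem play (V R : Finset (Fin n)) (hR : Disjoint V R) (t : ℕ)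
    (H : Finset (Ex n → ZMod 2))
    (P : List (Ex n × ZMod 2) → Ex n → ZMod 2) (hP : ∀ h, P h ∈ H) :
    ∀ (j : ℕ) (C : Finset (Fin n)), C ⊆ V → (∀ g ∈ H, ∀ C' ⊆ C, ¬ Good V t g C') →
      j * t + 1 ≤ C.card → ∀ h : List (Ex n × ZMod 2),
        ∃ i ∈ C, ∃ xs, j ≤ mistakes P (chi (insert i R)) h xs := by
  classical
  intro j
  induction j with
  | zero =>
    intro C _ _ hC h
    obtain ⟨i, hi⟩ := Finset.card_pos.1 (by omega : 0 < C.card)
    exact ⟨i, hi, [], Nat.zero_le _⟩
  | succ j ih =>
    intro C hCV hbad hC h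
    have hng := hbad (P h) (hP h) C (subset_refl _)
    unfold Good at hng
    push Not at hng
    obtain ⟨X, hXV, hX⟩ := hng
    have hval : ∀ i ∈ V, chi (insert i R) (ind X) = if i ∈ X then 1 else 0 := by
      intro i hi
      have hiR : i ∉ R := Finset.disjoint_left.1 hR hi
      unfold chi
      rw [Finset.sum_insert hiR, Finset.sum_eq_zero, add_zero]
      · rfl
      · intro k hk
        have : k ∉ X := fun hkX => Finset.disjoint_left.1 hR (hXV hkX) hk
        simp [ind, this]
    have step : ∀ (C' : Finset (Fin n)) (y : ZMod 2), C' ⊆ C → j * t + 1 ≤ C'.card →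
        (∀ i ∈ C', chi (insert i R) (ind X) = y) → P h (ind X) ≠ y →
        ∃ i ∈ C, ∃ xs, j + 1 ≤ mistakes P (chi (insert i R)) h xs := by
      intro C' y hC' hcard hy hPy
      obtain ⟨i, hi, xs, hxs⟩ := ih C' (hC'.trans hCV)
        (fun g hg D hD => hbad g hg D (hD.trans hC')) hcard (h ++ [(ind X, y)])
      refine ⟨i, hC' hi, ind X :: xs, ?_⟩
      have e := hy i hi
      unfold mistakes
      rw [e, if_neg hPy]
      omega
    by_cases h0 : (X ∩ C).card ≤ t ∧ P h (ind X) ≠ 0
    · refine step (C \ X) 0 sdiff_subset ?_ ?_ h0.2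
      · have h1 := Finset.card_sdiff_add_card_inter C X
        rw [inter_comm] at h1
        have h2 := h0.1
        have h3 : (j + 1) * t = j * t + t := by ring
        omega
      · intro i hi
        rw [mem_sdiff] at hi
        rw [hval i (hCV hi.1), if_neg hi.2]
    · have hX2 : (C \ X).card ≤ t ∧ P h (ind X) ≠ 1 := by
        refine hX ?_
        intro h1
        by_contra h2
        exact h0 ⟨h1, h2⟩
      refine step (C ∩ X) 1 inter_subset_left ?_ ?_ hX2.2
      · have h1 := Finset.card_sdiff_add_card_inter C X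
        have h2 := hX2.1
        have h3 : (j + 1) * t = j * t + t := by ring
        omega
      · intro i hi
        rw [mem_inter] at hi
        rw [hval i (hCV hi.1), if_pos hi.2]

end game


/-- Let `H` be a set of at most `2 ^ s` Boolean functions on `{0,1}^n`, and let `P` be a learner
(any function from finite histories of labelled examples to hypotheses) all of whose hypotheses lie
in `H`. If `3 * j * (s + 1) + r + 7 ≤ n`, `r ≥ 1`, then `P` makes at least `j` mistakes on some
parity function of exactly `r` variables and some finite sequence of examples. -/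
theorem result : ∀ (n r s j : ℕ) (H : Finset (Ex n → ZMod 2)), H.card ≤ 2 ^ s →
    ∀ P : List (Ex n × ZMod 2) → Ex n → ZMod 2, (∀ h, P h ∈ H) →
      1 ≤ r → 3 * j * (s + 1) + r + 7 ≤ n →
        ∃ S : Finset (Fin n), S.card = r ∧ ∃ xs : List (Ex n), j ≤ mistakes P (chi S) [] xs := by
  classical
  intro n r s j H hH P hP hr hn
  obtain ⟨R, -, hR⟩ := Finset.exists_subset_card_eq (s := (univ : Finset (Fin n))) (n := r - 1)
    (by rw [Finset.card_univ, Fintype.card_fin]; omega)
  rcases Nat.eq_zero_or_pos j with hj | hj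
  · subst hj
    obtain ⟨S, -, hS⟩ := Finset.exists_subset_card_eq (s := (univ : Finset (Fin n))) (n := r)
      (by rw [Finset.card_univ, Fintype.card_fin]; omega)
    exact ⟨S, hS, [], Nat.zero_le _⟩
  have hVc : (univ \ R).card = n - (r - 1) := by
    rw [Finset.card_sdiff_of_subset (subset_univ R), Finset.card_univ, Fintype.card_fin, hR]
  have hdis : Disjoint (univ \ R) R := sdiff_disjoint
  have h3 : s + 1 ≤ j * (s + 1) := Nat.le_mul_of_pos_left _ hj
  have h3' : 3 * j * (s + 1) = 3 * (j * (s + 1)) := by ring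
  obtain ⟨C, hCV, hC, hbad⟩ := exists_bad (univ \ R) (by rw [hVc]; omega) s ((s + 1) / 2)
    (by omega) H hH
  have h4 : j * ((s + 1) / 2) * 2 ≤ j * (s + 1) := by
    rw [mul_assoc]
    exact Nat.mul_le_mul_left _ (Nat.div_mul_le_self _ _)
  obtain ⟨i, hi, xs, hxs⟩ := play (univ \ R) R hdis ((s + 1) / 2) H P hP j C hCV hbad
    (by rw [hVc] at hC; omega) []
  refine ⟨insert i R, ?_, xs, hxs⟩
  rw [Finset.card_insert_of_notMem (Finset.disjoint_left.1 hdis (hCV hi)), hR]
  omega

end Pool.Agent.Results.MP_58e5da_lc.HypothesisBits
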